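import Pool.Agent.H365.DL.Stm

/-!
# Project DL: the group `Yg 𝒢 J` is finitely generated
-/

set_option autoImplicit false

namespace Pool.Agent.H365.DL

noncomputable section

namespace YFG

open HR

variable {R : Type} [Ring R]

/-- diagonal elements -/
def dg : Rˣ →* HR R where
  toFun u := ⟨0, 0, 0, u⟩
  map_one' := rfl
  map_mul' u v := by ext1 <;> simp

/-- the upper unipotent elements -/
def eU (a : R) : HR R := ⟨a, 0, 0, 1⟩

/-- the right unipotent elements -/
def eV (a : R) : HR R := ⟨0, a, 0, 1⟩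

theorem eU_add (a b : R) : eU (a + b) = eU a * eU b := by
  ext1 <;> simp [eU, add_comm]

theorem eU_zero : eU (0 : R) = 1 := rfl

theorem eU_neg (a : R) : eU (-a) = (eU a)⁻¹ := by
  rw [eq_inv_iff_mul_eq_one, ← eU_add, neg_add_cancel, eU_zero]

theorem eV_add (a b : R) : eV (a + b) = eV a * eV b := by
  ext1 <;> simp [eV]

theorem eV_zero : eV (0 : R) = 1 := rfl

theorem eV_neg (a : R) : eV (-a) = (eV a)⁻¹ := by
  rw [eq_inv_iff_mul_eq_one, ← eV_add, neg_add_cancel, eV_zero]

theorem eU_unit (u : Rˣ) : eU (u : R) = (dg u)⁻¹ * eU 1 * dg u := by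
  rw [mul_assoc, eq_inv_mul_iff_mul_eq]
  ext1 <;> simp [eU, dg]

theorem eV_unit (u : Rˣ) (s : R) : eV ((u : R) * s) = dg u * eV s * (dg u)⁻¹ := by
  rw [eq_mul_inv_iff_mul_eq]
  ext1 <;> simp [eV, dg]

theorem decomp (x : HR R) : x = z x.W * eV x.V * dg x.h * eU x.U := by
  ext1 <;> simp [eU, eV, dg, z]

theorem z_com' (W : R) : z W = eU 1 * eV W * (eU 1)⁻¹ * (eV W)⁻¹ := z_com W

theorem all_U {𝒢 : Subgroup Rˣ}
    (hG : AddSubgroup.closure ((fun u : Rˣ => (u : R)) '' (𝒢 : Set Rˣ)) = ⊤) {H : Subgroup (HR R)}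
    (hd : ∀ u ∈ 𝒢, dg u ∈ H) (h1 : eU (1 : R) ∈ H) (a : R) : eU a ∈ H := by
  let A : AddSubgroup R :=
    { carrier := {a | eU a ∈ H}
      zero_mem' := by
        change eU (0 : R) ∈ H
        rw [eU_zero]
        exact one_mem H
      add_mem' := by
        intro a b ha hb
        change eU (a + b) ∈ H
        rw [eU_add]
        exact mul_mem ha hb
      neg_mem' := by
        intro a ha
        change eU (-a) ∈ H
        rw [eU_neg]
        exact inv_mem ha }
  have hA : AddSubgroup.closure ((fun u : Rˣ => (u : R)) '' (𝒢 : Set Rˣ)) ≤ A := by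
    rw [AddSubgroup.closure_le]
    rintro _ ⟨u, hu, rfl⟩
    change eU (u : R) ∈ H
    rw [eU_unit]
    exact mul_mem (mul_mem (inv_mem (hd u hu)) h1) (hd u hu)
  rw [hG] at hA
  exact hA (AddSubgroup.mem_top a)

theorem all_V {𝒢 : Subgroup Rˣ}
    (hG : AddSubgroup.closure ((fun u : Rˣ => (u : R)) '' (𝒢 : Set Rˣ)) = ⊤) {H : Subgroup (HR R)}
    (hd : ∀ u ∈ 𝒢, dg u ∈ H) {s : R} (hs : eV s ∈ H) (r : R) : eV (r * s) ∈ H := by
  let A : AddSubgroup R :=
    { carrier := {r | eV (r * s) ∈ H}
      zero_mem' := by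
        change eV (0 * s) ∈ H
        rw [zero_mul, eV_zero]
        exact one_mem H
      add_mem' := by
        intro a b ha hb
        change eV ((a + b) * s) ∈ H
        rw [add_mul, eV_add]
        exact mul_mem ha hb
      neg_mem' := by
        intro a ha
        change eV (-a * s) ∈ H
        rw [neg_mul, eV_neg]
        exact inv_mem ha }
  have hA : AddSubgroup.closure ((fun u : Rˣ => (u : R)) '' (𝒢 : Set Rˣ)) ≤ A := by
    rw [AddSubgroup.closure_le]
    rintro _ ⟨u, hu, rfl⟩
    change eV ((u : R) * s) ∈ H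
    rw [eV_unit]
    exact mul_mem (mul_mem (hd u hu) hs) (inv_mem (hd u hu))
  rw [hG] at hA
  exact hA (AddSubgroup.mem_top r)

end YFG

open YFG

theorem t_YFG : S_YFG := by
  intro R _ 𝒢 J hfg hG hJ
  rw [Group.fg_iff_subgroup_fg] at hfg ⊢
  obtain ⟨S, hS⟩ := hfg
  obtain ⟨T, hT⟩ := hJ
  rw [Subgroup.fg_iff]
  obtain ⟨G, hGd⟩ : ∃ G : Set (HR R), G = (YFG.dg '' (S : Set Rˣ)) ∪ {YFG.eU 1} ∪
      (YFG.eV '' (T : Set R)) := ⟨_, rfl⟩
  refine ⟨G, ?_, ?_⟩
  · have h1 : ∀ u ∈ 𝒢, YFG.dg u ∈ Subgroup.closure G := by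
      intro u hu
      have h2 : 𝒢 ≤ (Subgroup.closure G).comap YFG.dg := by
        rw [← hS, Subgroup.closure_le]
        intro v hv
        change YFG.dg v ∈ Subgroup.closure G
        refine Subgroup.subset_closure ?_
        rw [hGd]
        exact Or.inl (Or.inl ⟨v, hv, rfl⟩)
      exact h2 hu
    have h2 : YFG.eU (1 : R) ∈ Subgroup.closure G := by
      refine Subgroup.subset_closure ?_
      rw [hGd]
      exact Or.inl (Or.inr rfl)
    have h3 : ∀ s ∈ T, YFG.eV s ∈ Subgroup.closure G := by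
      intro s hs
      refine Subgroup.subset_closure ?_
      rw [hGd]
      exact Or.inr ⟨s, hs, rfl⟩
    have h4 : ∀ a ∈ J, ∀ r, YFG.eV (r * a) ∈ Subgroup.closure G := by
      intro a ha
      have ha' : a ∈ Submodule.span R (T : Set R) := by
        have : a ∈ J := ha
        rw [← hT] at this
        exact this
      induction ha' using Submodule.span_induction with
      | mem s hs => exact fun r => all_V hG h1 (h3 s hs) r
      | zero =>
        intro r
        rw [mul_zero, YFG.eV_zero]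
        exact one_mem _
      | add x y hx hy ihx ihy =>
        intro r
        rw [mul_add, YFG.eV_add]
        refine mul_mem (ihx ?_ r) (ihy ?_ r)
        · rw [← hT]; exact hx
        · rw [← hT]; exact hy
      | smul c x hx ihx =>
        intro r
        rw [smul_eq_mul, ← mul_assoc]
        refine ihx ?_ (r * c)
        rw [← hT]; exact hx
    apply le_antisymm
    · rw [Subgroup.closure_le, hGd]
      rintro _ ((⟨u, hu, rfl⟩ | hx) | ⟨s, hs, rfl⟩)
      · refine ⟨?_, J.zero_mem, J.zero_mem⟩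
        rw [← hS]
        exact Subgroup.subset_closure hu
      · rw [Set.mem_singleton_iff] at hx
        rw [hx]
        exact ⟨𝒢.one_mem, J.zero_mem, J.zero_mem⟩
      · refine ⟨𝒢.one_mem, ?_, J.zero_mem⟩
        change s ∈ J
        rw [← hT]
        exact Submodule.subset_span hs
    · intro x hx
      obtain ⟨hx1, hx2, hx3⟩ := mem_Yg.1 hx
      have h5 : ∀ a ∈ J, YFG.eV a ∈ Subgroup.closure G := by
        intro a ha
        have := h4 a ha 1
        rw [one_mul] at this
        exact this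
      rw [YFG.decomp x]
      refine mul_mem (mul_mem (mul_mem ?_ (h5 _ hx2)) (h1 _ hx1)) (all_U hG h1 h2 _)
      rw [YFG.z_com']
      exact mul_mem (mul_mem (mul_mem h2 (h5 _ hx3)) (inv_mem h2)) (inv_mem (h5 _ hx3))
  · rw [hGd]
    exact ((S.finite_toSet.image _).union (Set.finite_singleton _)).union (T.finite_toSet.image _)

end

end Pool.Agent.H365.DL
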